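import Mathlib

/-!
# Nested grid-equidistributed sequences in the unit square

We prove that `K*` is finite: there is no `K`-good sequence for `K ≥ 13000`, hence no good
infinite sequence.
-/

namespace Pool.Agent.Results.MP_924435_co.FiniteKStar

/-- The half-open unit square `Q = [0,1)²`. -/
def Q : Set (ℝ × ℝ) := Set.Ico 0 1 ×ˢ Set.Ico 0 1

/-- The cell `C_{k;i,j} = [(i-1)/k, i/k) × [(j-1)/k, j/k)` (used for `1 ≤ i, j ≤ k`). -/
def Cell (k i j : ℕ) : Set (ℝ × ℝ) :=
  Set.Ico (((i : ℝ) - 1) / k) ((i : ℝ) / k) ×ˢ Set.Ico (((j : ℝ) - 1) / k) ((j : ℝ) / k)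

/-- `x 1, …, x (K^2)` is a `K`-good sequence of points of `Q`: for every `k = 1, …, K` each cell
of the `k × k` grid contains exactly one of the first `k^2` points. -/
def KGood (K : ℕ) (x : ℕ → ℝ × ℝ) : Prop :=
  (∀ n, 1 ≤ n → n ≤ K ^ 2 → x n ∈ Q) ∧
  ∀ k, 1 ≤ k → k ≤ K → ∀ i j, 1 ≤ i → i ≤ k → 1 ≤ j → j ≤ k →
    ∃! n, (1 ≤ n ∧ n ≤ k ^ 2) ∧ x n ∈ Cell k i j

/-- The supremum `K* ∈ {1,2,…} ∪ {∞}` of those `K` for which a `K`-good sequence exists. -/
noncomputable def Kstar : ℕ∞ := ⨆ K ∈ {K : ℕ | 1 ≤ K ∧ ∃ x, KGood K x}, (K : ℕ∞)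

/-! ## Lemma A: two points that stay in neighbouring columns -/

lemma two_points (u v : ℝ) (hu0 : 0 < u) (hu1 : u < 1) (A B : ℕ)
    (h : ∀ k : ℕ, A ≤ k → k ≤ B → ⌊(k : ℝ) * v⌋₊ = ⌊(k : ℝ) * u⌋₊ + 1) :
    (B : ℝ) * (1 - u) < A * (1 + u) + 2 / u + 2 := by
  have hA0 : (0 : ℝ) ≤ A := Nat.cast_nonneg A
  have hB0 : (0 : ℝ) ≤ B := Nat.cast_nonneg B
  have hiu : 0 < 1 / u := by positivity
  have h2u : 2 / u = 2 * (1 / u) := by ring
  have hmul : 1 / u * u = 1 := by field_simp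
  by_cases hcase : (B : ℝ) ≤ A + 1 / u + 1
  · rw [h2u]
    nlinarith [mul_nonneg hB0 hu0.le, mul_nonneg hA0 hu0.le]
  push Not at hcase
  -- first crossing
  set m : ℕ := ⌊(A : ℝ) * u⌋₊ + 1 with hm
  have hm1 : (A : ℝ) * u < m := by
    have := Nat.lt_floor_add_one ((A : ℝ) * u)
    rw [hm]; push_cast; exact this
  have hm2 : (m : ℝ) ≤ A * u + 1 := by
    have := Nat.floor_le (mul_nonneg hA0 hu0.le)
    rw [hm]; push_cast; linarith
  set k1 : ℕ := ⌈(m : ℝ) / u⌉₊ with hk1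
  have hk1a : (m : ℝ) / u ≤ k1 := Nat.le_ceil _
  have hk1b : (k1 : ℝ) < m / u + 1 := Nat.ceil_lt_add_one (by positivity)
  have hmu1 : (m : ℝ) ≤ k1 * u := by rwa [div_le_iff₀ hu0] at hk1a
  have hmu2 : (k1 : ℝ) * u < m + u := by
    have : (k1 : ℝ) * u < (m / u + 1) * u := mul_lt_mul_of_pos_right hk1b hu0
    have e : ((m : ℝ) / u + 1) * u = m + u := by field_simp
    linarith
  have hmdiv : (m : ℝ) / u ≤ A + 1 / u := by
    rw [div_le_iff₀ hu0]
    have : ((A : ℝ) + 1 / u) * u = A * u + 1 := by field_simp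
    linarith
  have hAk1 : (A : ℝ) < k1 := by
    have : (A : ℝ) < m / u := by rw [lt_div_iff₀ hu0]; exact hm1
    linarith
  have hk1B : (k1 : ℝ) < B := by linarith
  have e1 : ⌊(k1 : ℝ) * u⌋₊ = m := by
    rw [Nat.floor_eq_iff (by positivity)]
    constructor
    · exact hmu1
    · linarith
  have e2 := h k1 (by exact_mod_cast hAk1.le) (by exact_mod_cast hk1B.le)
  rw [e1] at e2
  have e3 : ((m : ℝ) + 1) ≤ k1 * v := by
    have hpos : (0 : ℝ) ≤ k1 * v := by
      by_contra hneg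
      push Not at hneg
      have := Nat.floor_of_nonpos hneg.le
      omega
    have := Nat.floor_le hpos
    rw [e2] at this; push_cast at this; exact this
  have hd1 : 1 - u < k1 * (v - u) := by nlinarith
  -- second crossing
  set m' : ℕ := ⌊(B : ℝ) * u⌋₊ with hm'
  have hm'1 : (m' : ℝ) ≤ B * u := Nat.floor_le (mul_nonneg hB0 hu0.le)
  have hm'2 : (B : ℝ) * u < m' + 1 := Nat.lt_floor_add_one _
  set c : ℕ := ⌈(m' : ℝ) / u⌉₊ with hc
  have hc1 : (m' : ℝ) / u ≤ c := Nat.le_ceil _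
  have hc2 : (c : ℝ) < m' / u + 1 := Nat.ceil_lt_add_one (by positivity)
  have hcu1 : (m' : ℝ) ≤ c * u := by rwa [div_le_iff₀ hu0] at hc1
  have hcu2 : (c : ℝ) * u < m' + u := by
    have : (c : ℝ) * u < (m' / u + 1) * u := mul_lt_mul_of_pos_right hc2 hu0
    have e : ((m' : ℝ) / u + 1) * u = m' + u := by field_simp
    linarith
  have hcB : (B : ℝ) - 1 / u < c := by
    have : (B : ℝ) - 1 / u < m' / u := by
      rw [lt_div_iff₀ hu0]
      have e : ((B : ℝ) - 1 / u) * u = B * u - 1 := by field_simp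
      linarith
    linarith
  have hc0 : 1 ≤ c := by
    have : (0 : ℝ) < c := by linarith
    exact_mod_cast this
  set k2 : ℕ := c - 1 with hk2
  have hk2c : (k2 : ℝ) = c - 1 := by
    rw [hk2]; push_cast [Nat.cast_sub hc0]; ring
  have hcleB : c ≤ B := by
    apply Nat.ceil_le.mpr
    rw [div_le_iff₀ hu0]; exact hm'1
  have hk2B : k2 ≤ B := by omega
  have hAk2 : (A : ℝ) < k2 := by rw [hk2c]; linarith
  have hAk2' : A ≤ k2 := by exact_mod_cast hAk2.le
  have hm'0 : 1 ≤ m' := by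
    by_contra h0
    have : m' = 0 := by omega
    have hc' : c = 0 := by rw [hc, this]; simp
    omega
  have g1 : ⌊(k2 : ℝ) * u⌋₊ = m' - 1 := by
    rw [Nat.floor_eq_iff (by positivity)]
    rw [Nat.cast_sub hm'0, hk2c]
    push_cast
    constructor
    · nlinarith
    · nlinarith
  have g2 := h k2 hAk2' hk2B
  rw [g1] at g2
  have g3 : (k2 : ℝ) * v < m' + 1 := by
    have := Nat.lt_floor_add_one ((k2 : ℝ) * v)
    rw [g2] at this
    have e : m' - 1 + 1 = m' := by omega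
    rw [e] at this
    exact this
  have hd2 : (k2 : ℝ) * (v - u) < 1 + u := by
    have : (m' : ℝ) - u ≤ k2 * u := by rw [hk2c]; linarith
    linarith
  have hk1pos : (0 : ℝ) < k1 := by linarith
  have hk2pos : (0 : ℝ) < k2 := by linarith
  have h1 : (k2 : ℝ) * (1 - u) < k2 * (k1 * (v - u)) := mul_lt_mul_of_pos_left hd1 hk2pos
  have h2 : (k1 : ℝ) * (k2 * (v - u)) < k1 * (1 + u) := mul_lt_mul_of_pos_left hd2 hk1pos
  have h3 : (k2 : ℝ) * (1 - u) < k1 * (1 + u) := by nlinarith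
  have h4 : (B : ℝ) - 1 / u - 1 < k2 := by rw [hk2c]; linarith
  have h5 : (k1 : ℝ) < A + 1 / u + 1 := by linarith
  have h6 : ((B : ℝ) - 1 / u - 1) * (1 - u) < k2 * (1 - u) :=
    mul_lt_mul_of_pos_right h4 (by linarith)
  have h7 : (k1 : ℝ) * (1 + u) < (A + 1 / u + 1) * (1 + u) :=
    mul_lt_mul_of_pos_right h5 (by linarith)
  rw [h2u]
  nlinarith

/-! ## Lemma B: a chain of constancy intervals -/

lemma chain (E : Finset ℕ) (M N : ℕ) (ρ D : ℝ) (hρ : 1 ≤ ρ) (hD : 0 ≤ D)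
    (hE : ∀ k ∈ E, k ≤ N)
    (hstep : ∀ A B : ℕ, M ≤ A → A ≤ B → B ≤ N → (∀ k, A < k → k ≤ B → k ∉ E) →
      (B : ℝ) + 1 + D ≤ ρ * (A + D)) :
    ∀ (j A : ℕ), M ≤ A → A ≤ N → (E.filter (fun k => A < k)).card ≤ j →
      (N : ℝ) + 1 + D ≤ ρ ^ (j + 1) * (A + D) := by
  intro j
  induction j with
  | zero =>
    intro A hMA hAN hcard
    have hemp : E.filter (fun k => A < k) = ∅ := by
      rw [← Finset.card_eq_zero]; omega
    have := hstep A N hMA hAN le_rfl (by
      intro k hk _ hkE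
      have : k ∈ E.filter (fun k => A < k) := Finset.mem_filter.mpr ⟨hkE, hk⟩
      rw [hemp] at this
      exact absurd this (Finset.notMem_empty _))
    simpa using this
  | succ j ih =>
    intro A hMA hAN hcard
    have hAD : (0 : ℝ) ≤ A + D := by positivity
    by_cases hne : (E.filter (fun k => A < k)).Nonempty
    · set e := (E.filter (fun k => A < k)).min' hne with he
      have hemem : e ∈ E.filter (fun k => A < k) := Finset.min'_mem _ _
      have heE := (Finset.mem_filter.mp hemem).1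
      have heA := (Finset.mem_filter.mp hemem).2
      have heN := hE e heE
      have s1 := hstep A (e - 1) hMA (by omega) (by omega) (by
        intro k hk hke hkE
        have hk' : k ∈ E.filter (fun k => A < k) := Finset.mem_filter.mpr ⟨hkE, hk⟩
        have := Finset.min'_le _ _ hk'
        rw [← he] at this
        omega)
      have hcast : ((e - 1 : ℕ) : ℝ) + 1 = e := by
        rw [Nat.cast_sub (by omega)]; push_cast; ring
      rw [hcast] at s1
      have hcard2 : (E.filter (fun k => e < k)).card ≤ j := by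
        have hsub : E.filter (fun k => e < k) ⊂ E.filter (fun k => A < k) := by
          rw [Finset.ssubset_iff_of_subset]
          · exact ⟨e, hemem, by simp⟩
          · intro k hk
            rw [Finset.mem_filter] at hk ⊢
            exact ⟨hk.1, lt_trans heA hk.2⟩
        have := Finset.card_lt_card hsub
        omega
      have s2 := ih e (by omega) heN hcard2
      have hpow : (0 : ℝ) ≤ ρ ^ (j + 1) := by positivity
      calc (N : ℝ) + 1 + D ≤ ρ ^ (j + 1) * (e + D) := s2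
        _ ≤ ρ ^ (j + 1) * (ρ * (A + D)) := mul_le_mul_of_nonneg_left s1 hpow
        _ = ρ ^ (j + 1 + 1) * (A + D) := by ring
    · rw [Finset.not_nonempty_iff_eq_empty] at hne
      have s1 := hstep A N hMA hAN le_rfl (by
        intro k hk _ hkE
        have : k ∈ E.filter (fun k => A < k) := Finset.mem_filter.mpr ⟨hkE, hk⟩
        rw [hne] at this
        exact absurd this (Finset.notMem_empty _))
      have hpow : (1 : ℝ) ≤ ρ ^ (j + 1) := one_le_pow₀ hρ
      have h0 : 0 ≤ ρ * (A + D) := by positivity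
      calc (N : ℝ) + 1 + D ≤ ρ * (A + D) := s1
        _ ≤ ρ ^ (j + 1) * (ρ * (A + D)) := le_mul_of_one_le_left h0 hpow
        _ = ρ ^ (j + 1 + 1) * (A + D) := by ring

/-! ## Translation of the definition into floors -/

lemma mem_cell_iff {k i j : ℕ} (hk : 1 ≤ k) (hi : 1 ≤ i) (hj : 1 ≤ j) {p : ℝ × ℝ} (hp : p ∈ Q) :
    p ∈ Cell k i j ↔ ⌊(k : ℝ) * p.1⌋₊ = i - 1 ∧ ⌊(k : ℝ) * p.2⌋₊ = j - 1 := by
  obtain ⟨⟨hp1, -⟩, ⟨hp2, -⟩⟩ := hp
  have hk0 : (0 : ℝ) < k := by exact_mod_cast hk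
  have key : ∀ (i : ℕ), 1 ≤ i → ∀ t : ℝ, 0 ≤ t →
      (t ∈ Set.Ico (((i : ℝ) - 1) / k) ((i : ℝ) / k) ↔ ⌊(k : ℝ) * t⌋₊ = i - 1) := by
    intro i hi t ht
    rw [Nat.floor_eq_iff (by positivity), Set.mem_Ico, div_le_iff₀ hk0, lt_div_iff₀ hk0,
      Nat.cast_sub hi]
    push_cast
    constructor
    · rintro ⟨h1, h2⟩
      constructor <;> nlinarith
    · rintro ⟨h1, h2⟩
      constructor <;> nlinarith
  unfold Cell
  rw [Set.mem_prod, key i hi _ hp1, key j hj _ hp2]

lemma good_inj {K : ℕ} {x : ℕ → ℝ × ℝ} (hx : KGood K x) {k : ℕ} (hk : 1 ≤ k) (hkK : k ≤ K)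
    {n n' : ℕ} (hn1 : 1 ≤ n) (hn2 : n ≤ k ^ 2) (hn1' : 1 ≤ n') (hn2' : n' ≤ k ^ 2)
    (h1 : ⌊(k : ℝ) * (x n).1⌋₊ = ⌊(k : ℝ) * (x n').1⌋₊)
    (h2 : ⌊(k : ℝ) * (x n).2⌋₊ = ⌊(k : ℝ) * (x n').2⌋₊) : n = n' := by
  have hkk : k ^ 2 ≤ K ^ 2 := Nat.pow_le_pow_left hkK 2
  have hQ := hx.1 n hn1 (hn2.trans hkk)
  have hQ' := hx.1 n' hn1' (hn2'.trans hkk)
  have hk0 : (0 : ℝ) < k := by exact_mod_cast hk
  have fl : ∀ t : ℝ, 0 ≤ t → t < 1 → ⌊(k : ℝ) * t⌋₊ < k := by
    intro t ht ht1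
    rw [Nat.floor_lt (by positivity)]
    nlinarith
  have a1 := fl _ hQ.1.1 hQ.1.2
  have a2 := fl _ hQ.2.1 hQ.2.2
  obtain ⟨z, -, hz⟩ := hx.2 k hk hkK (⌊(k : ℝ) * (x n).1⌋₊ + 1) (⌊(k : ℝ) * (x n).2⌋₊ + 1)
    (by omega) (by omega) (by omega) (by omega)
  have b1 := hz n ⟨⟨hn1, hn2⟩, (mem_cell_iff hk (by omega) (by omega) hQ).mpr
    ⟨by simp, by simp⟩⟩
  have b2 := hz n' ⟨⟨hn1', hn2'⟩, (mem_cell_iff hk (by omega) (by omega) hQ').mpr
    ⟨by rw [← h1]; simp, by rw [← h2]; simp⟩⟩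
  rw [b1, b2]

lemma good_surj {K : ℕ} {x : ℕ → ℝ × ℝ} (hx : KGood K x) {k : ℕ} (hk : 1 ≤ k) (hkK : k ≤ K)
    {a b : ℕ} (ha : a < k) (hb : b < k) :
    ∃ n, 1 ≤ n ∧ n ≤ k ^ 2 ∧ ⌊(k : ℝ) * (x n).1⌋₊ = a ∧ ⌊(k : ℝ) * (x n).2⌋₊ = b := by
  obtain ⟨z, ⟨⟨hz1, hz2⟩, hz3⟩, -⟩ := hx.2 k hk hkK (a + 1) (b + 1)
    (by omega) (by omega) (by omega) (by omega)
  have hkk : k ^ 2 ≤ K ^ 2 := Nat.pow_le_pow_left hkK 2
  have hQ := hx.1 z hz1 (hz2.trans hkk)
  have := (mem_cell_iff hk (by omega) (by omega) hQ).mp hz3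
  exact ⟨z, hz1, hz2, by simpa using this.1, by simpa using this.2⟩

/-! ## The bottom row seen through the window `[1/100, 68/6500)` -/

open Classical in
/-- The indices of the first `k^2` points that lie in the bottom row of the `k × k` grid and in
the window. -/
noncomputable def S (x : ℕ → ℝ × ℝ) (k : ℕ) : Finset ℕ :=
  (Finset.Icc 1 (k ^ 2)).filter
    (fun n => (k : ℝ) * (x n).2 < 1 ∧ (1 / 100 : ℝ) ≤ (x n).1 ∧ (x n).1 < 68 / 6500)

lemma mem_S {x : ℕ → ℝ × ℝ} {k n : ℕ} : n ∈ S x k ↔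
    (1 ≤ n ∧ n ≤ k ^ 2) ∧ (k : ℝ) * (x n).2 < 1 ∧ (1 / 100 : ℝ) ≤ (x n).1 ∧
      (x n).1 < 68 / 6500 := by
  classical
  unfold S
  rw [Finset.mem_filter, Finset.mem_Icc]

lemma step {x : ℕ → ℝ × ℝ} (hx : KGood 13000 x) (A B : ℕ) (hA : 6500 ≤ A) (hAB : A ≤ B)
    (hB : B ≤ 13000) (hS : ∀ k, A ≤ k → k ≤ B → S x k = S x A) :
    (B : ℝ) * (1 - 21 / 2000) < A * (1 + 21 / 2000) + 202 := by
  have hA' : (6500 : ℝ) ≤ A := by exact_mod_cast hA
  have hA0 : (0 : ℝ) < A := by linarith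
  set c : ℕ := ⌈(A : ℝ) / 100⌉₊ with hc
  have hc1 : (A : ℝ) / 100 ≤ c := Nat.le_ceil _
  have hc2 : (c : ℝ) < A / 100 + 1 := Nat.ceil_lt_add_one (by positivity)
  have hcA : c + 1 < A := by
    have : (c : ℝ) + 1 < A := by linarith
    exact_mod_cast this
  obtain ⟨n, hn1, hn2, hn3, hn4⟩ := good_surj hx (k := A) (by omega) (by omega)
    (a := c) (b := 0) (by omega) (by omega)
  obtain ⟨n', hn1', hn2', hn3', hn4'⟩ := good_surj hx (k := A) (by omega) (by omega)
    (a := c + 1) (b := 0) (by omega) (by omega)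
  have hAsq : A ^ 2 ≤ 13000 ^ 2 := Nat.pow_le_pow_left (by omega) 2
  have hQn := hx.1 n hn1 (hn2.trans hAsq)
  have hQn' := hx.1 n' hn1' (hn2'.trans hAsq)
  have u0 : 0 ≤ (x n).1 := hQn.1.1
  have u0' : 0 ≤ (x n').1 := hQn'.1.1
  have n3 := (Nat.floor_eq_iff (by positivity)).mp hn3
  have n3' := (Nat.floor_eq_iff (by positivity)).mp hn3'
  push_cast at n3'
  have n4 : (A : ℝ) * (x n).2 < 1 := by
    have := Nat.lt_floor_add_one ((A : ℝ) * (x n).2)
    rw [hn4] at this; simpa using this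
  have n4' : (A : ℝ) * (x n').2 < 1 := by
    have := Nat.lt_floor_add_one ((A : ℝ) * (x n').2)
    rw [hn4'] at this; simpa using this
  have w1 : (1 / 100 : ℝ) ≤ (x n).1 := by
    have : (A : ℝ) * (1 / 100) ≤ A * (x n).1 := by linarith [n3.1]
    exact le_of_mul_le_mul_left this hA0
  have w1' : (1 / 100 : ℝ) ≤ (x n').1 := by
    have : (A : ℝ) * (1 / 100) ≤ A * (x n').1 := by linarith [n3'.1]
    exact le_of_mul_le_mul_left this hA0
  have w2' : (x n').1 < 68 / 6500 := by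
    have : (A : ℝ) * (x n').1 < A * (68 / 6500) := by
      have h3 : (A : ℝ) * (68 / 6500) = A / 100 + A * 3 / 6500 := by ring
      have h4 : (3 : ℝ) ≤ A * 3 / 6500 := by linarith
      linarith [n3'.2]
    exact lt_of_mul_lt_mul_left this hA0.le
  have hlt : (x n).1 < (x n').1 := by
    have : (A : ℝ) * (x n).1 < A * (x n').1 := by linarith [n3.2, n3'.1]
    exact lt_of_mul_lt_mul_left this hA0.le
  have w2 : (x n).1 < 68 / 6500 := by linarith
  have hnS : n ∈ S x A := mem_S.mpr ⟨⟨hn1, hn2⟩, n4, w1, w2⟩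
  have hnS' : n' ∈ S x A := mem_S.mpr ⟨⟨hn1', hn2'⟩, n4', w1', w2'⟩
  have hne : n ≠ n' := by
    rintro rfl
    exact lt_irrefl _ hlt
  have key := two_points (x n).1 (x n').1 (by linarith) (by linarith) A B (by
    intro k hAk hkB
    have hk0 : (0 : ℝ) < k := by
      have : (A : ℝ) ≤ k := by exact_mod_cast hAk
      linarith
    have hk1 : 1 ≤ k := by omega
    have hkn : n ∈ S x k := by rw [hS k hAk hkB]; exact hnS
    have hkn' : n' ∈ S x k := by rw [hS k hAk hkB]; exact hnS'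
    rw [mem_S] at hkn hkn'
    have row : ∀ z, z ∈ S x k → ⌊(k : ℝ) * (x z).2⌋₊ = 0 := by
      intro z hz
      rw [Nat.floor_eq_zero]
      exact (mem_S.mp hz).2.1
    have rn := row n (mem_S.mpr hkn)
    have rn' := row n' (mem_S.mpr hkn')
    have hle : ⌊(k : ℝ) * (x n).1⌋₊ ≤ ⌊(k : ℝ) * (x n').1⌋₊ :=
      Nat.floor_le_floor (mul_le_mul_of_nonneg_left hlt.le hk0.le)
    have hneq : ⌊(k : ℝ) * (x n).1⌋₊ ≠ ⌊(k : ℝ) * (x n').1⌋₊ := by
      intro heq
      exact hne (good_inj hx hk1 (by omega) hkn.1.1 hkn.1.2 hkn'.1.1 hkn'.1.2 heq (by rw [rn, rn']))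
    by_contra hcon
    have hge : ⌊(k : ℝ) * (x n).1⌋₊ + 2 ≤ ⌊(k : ℝ) * (x n').1⌋₊ := by omega
    have hlast : ⌊(k : ℝ) * (x n').1⌋₊ < k := by
      rw [Nat.floor_lt (by positivity)]
      have : (x n').1 < 1 := hQn'.1.2
      nlinarith
    obtain ⟨z, hz1, hz2, hz3, hz4⟩ := good_surj hx (k := k) hk1 (by omega)
      (a := ⌊(k : ℝ) * (x n).1⌋₊ + 1) (b := 0) (by omega) (by omega)
    have hksq : k ^ 2 ≤ 13000 ^ 2 := Nat.pow_le_pow_left (by omega) 2
    have hQz := hx.1 z hz1 (hz2.trans hksq)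
    have uz0 : 0 ≤ (x z).1 := hQz.1.1
    have z3 := (Nat.floor_eq_iff (by positivity)).mp hz3
    push_cast at z3
    have f1 := Nat.lt_floor_add_one ((k : ℝ) * (x n).1)
    have f2 := Nat.floor_le (a := (k : ℝ) * (x n').1) (by positivity)
    have hge' : (⌊(k : ℝ) * (x n).1⌋₊ : ℝ) + 2 ≤ ⌊(k : ℝ) * (x n').1⌋₊ := by exact_mod_cast hge
    have l1 : (x n).1 < (x z).1 := by
      have : (k : ℝ) * (x n).1 < k * (x z).1 := by linarith [z3.1]
      exact lt_of_mul_lt_mul_left this hk0.le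
    have l2 : (x z).1 < (x n').1 := by
      have : (k : ℝ) * (x z).1 < k * (x n').1 := by linarith [z3.2]
      exact lt_of_mul_lt_mul_left this hk0.le
    have z4 : (k : ℝ) * (x z).2 < 1 := by
      have := Nat.lt_floor_add_one ((k : ℝ) * (x z).2)
      rw [hz4] at this; simpa using this
    have hzS : z ∈ S x k := mem_S.mpr ⟨⟨hz1, hz2⟩, z4, by linarith, by linarith⟩
    rw [hS k hAk hkB] at hzS
    have hzA := mem_S.mp hzS
    have rA : ∀ z, z ∈ S x A → ⌊(A : ℝ) * (x z).2⌋₊ = 0 := by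
      intro z hz
      rw [Nat.floor_eq_zero]
      exact (mem_S.mp hz).2.1
    have g1 : ⌊(A : ℝ) * (x n).1⌋₊ ≤ ⌊(A : ℝ) * (x z).1⌋₊ :=
      Nat.floor_le_floor (mul_le_mul_of_nonneg_left l1.le hA0.le)
    have g2 : ⌊(A : ℝ) * (x z).1⌋₊ ≤ ⌊(A : ℝ) * (x n').1⌋₊ :=
      Nat.floor_le_floor (mul_le_mul_of_nonneg_left l2.le hA0.le)
    rw [hn3] at g1
    rw [hn3'] at g2
    rcases Nat.eq_or_lt_of_le g1 with g | g
    · have := good_inj hx (k := A) (by omega) (by omega) hn1 hn2 hzA.1.1 hzA.1.2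
        (by rw [hn3]; exact g) (by rw [rA n hnS, rA z hzS])
      rw [this] at l1
      exact lt_irrefl _ l1
    · have := good_inj hx (k := A) (by omega) (by omega) hn1' hn2' hzA.1.1 hzA.1.2
        (by rw [hn3']; omega) (by rw [rA n' hnS', rA z hzS])
      rw [this] at l2
      exact lt_irrefl _ l2)
  have hupos : 0 < (x n).1 := by linarith
  have h2 : 2 / (x n).1 ≤ 200 := by
    rw [div_le_iff₀ hupos]; linarith
  have hB0 : (0 : ℝ) ≤ B := Nat.cast_nonneg B
  have hu : (x n).1 < 21 / 2000 := by linarith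
  nlinarith [mul_le_mul_of_nonneg_left hu.le hB0, mul_le_mul_of_nonneg_left hu.le hA0.le]

/-! ## Counting the events -/

section Events

variable {x : ℕ → ℝ × ℝ}

open Classical in
/-- All indices that are ever in the bottom row and in the window for some `6500 ≤ k ≤ 13000`. -/
noncomputable def W (x : ℕ → ℝ × ℝ) : Finset ℕ :=
  (Finset.Icc 1 (13000 ^ 2)).filter
    (fun n => (6500 : ℝ) * (x n).2 < 1 ∧ (1 / 100 : ℝ) ≤ (x n).1 ∧ (x n).1 < 68 / 6500)

lemma mem_W {n : ℕ} : n ∈ W x ↔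
    (1 ≤ n ∧ n ≤ 13000 ^ 2) ∧ (6500 : ℝ) * (x n).2 < 1 ∧ (1 / 100 : ℝ) ≤ (x n).1 ∧
      (x n).1 < 68 / 6500 := by
  classical
  unfold W
  rw [Finset.mem_filter, Finset.mem_Icc]

open Classical in
/-- Indices in `W` that appear after time `6500`. -/
noncomputable def G (x : ℕ → ℝ × ℝ) : Finset ℕ := (W x).filter (fun n => 6500 ^ 2 < n)

open Classical in
/-- Indices in `W` that leave the bottom row until time `13000`. -/
noncomputable def L (x : ℕ → ℝ × ℝ) : Finset ℕ :=
  (W x).filter (fun n => (1 : ℝ) ≤ 13000 * (x n).2)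

lemma W_floor1 (_hx : KGood 13000 x) {n : ℕ} (hn : n ∈ W x) :
    ⌊((13000 : ℕ) : ℝ) * (x n).1⌋₊ ∈ Finset.Ico 130 136 := by
  have h := mem_W.mp hn
  have h0 : 0 ≤ (x n).1 := by linarith [h.2.2.1]
  rw [Finset.mem_Ico]
  constructor
  · apply Nat.le_floor
    push_cast
    linarith [h.2.2.1]
  · rw [Nat.floor_lt (by positivity)]
    push_cast
    linarith [h.2.2.2]

lemma W_floor2 (hx : KGood 13000 x) {n : ℕ} (hn : n ∈ W x) :
    ⌊((13000 : ℕ) : ℝ) * (x n).2⌋₊ ∈ Finset.range 2 := by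
  have h := mem_W.mp hn
  have h0 : 0 ≤ (x n).2 := (hx.1 n h.1.1 h.1.2).2.1
  rw [Finset.mem_range, Nat.floor_lt (by positivity)]
  push_cast
  linarith [h.2.1]

lemma W_inj (hx : KGood 13000 x) : Set.InjOn
    (fun n => (⌊((13000 : ℕ) : ℝ) * (x n).1⌋₊, ⌊((13000 : ℕ) : ℝ) * (x n).2⌋₊)) (W x : Set ℕ) := by
  intro n hn n' hn' heq
  have h := mem_W.mp (Finset.mem_coe.mp hn)
  have h' := mem_W.mp (Finset.mem_coe.mp hn')
  simp only [Prod.mk.injEq] at heq
  exact good_inj hx (by norm_num) le_rfl h.1.1 h.1.2 h'.1.1 h'.1.2 heq.1 heq.2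

lemma card_W (hx : KGood 13000 x) : (W x).card ≤ 12 := by
  have := Finset.card_le_card_of_injOn
    (s := W x) (t := Finset.Ico 130 136 ×ˢ Finset.range 2)
    (fun n => (⌊((13000 : ℕ) : ℝ) * (x n).1⌋₊, ⌊((13000 : ℕ) : ℝ) * (x n).2⌋₊))
    (fun n hn => Finset.mem_product.mpr ⟨W_floor1 hx hn, W_floor2 hx hn⟩) (W_inj hx)
  simpa using this

lemma card_L (hx : KGood 13000 x) : (L x).card ≤ 6 := by
  classical
  have hsub : ∀ n ∈ L x, n ∈ W x := fun n hn => (Finset.mem_filter.mp hn).1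
  have := Finset.card_le_card_of_injOn
    (s := L x) (t := Finset.Ico 130 136 ×ˢ {1})
    (fun n => (⌊((13000 : ℕ) : ℝ) * (x n).1⌋₊, ⌊((13000 : ℕ) : ℝ) * (x n).2⌋₊))
    (fun n hn => Finset.mem_product.mpr ⟨W_floor1 hx (hsub n hn), by
      have h1 := Finset.mem_range.mp (W_floor2 hx (hsub n hn))
      have h2 := (Finset.mem_filter.mp hn).2
      have h3 : 1 ≤ ⌊((13000 : ℕ) : ℝ) * (x n).2⌋₊ := by
        apply Nat.le_floor
        push_cast
        exact h2
      rw [Finset.mem_singleton]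
      show ⌊((13000 : ℕ) : ℝ) * (x n).2⌋₊ = 1
      omega⟩)
    (fun n hn n' hn' h => W_inj hx (Finset.mem_coe.mpr (hsub n hn))
      (Finset.mem_coe.mpr (hsub n' hn')) h)
  simpa using this

lemma card_early (hx : KGood 13000 x) :
    3 ≤ ((W x).filter (fun n => ¬ 6500 ^ 2 < n)).card := by
  classical
  have hex : ∀ a : ℕ, ∃ n, a ∈ Finset.Ico 65 68 → (1 ≤ n ∧ n ≤ 6500 ^ 2 ∧
      ⌊((6500 : ℕ) : ℝ) * (x n).1⌋₊ = a ∧ ⌊((6500 : ℕ) : ℝ) * (x n).2⌋₊ = 0) := by
    intro a
    by_cases ha : a ∈ Finset.Ico 65 68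
    · rw [Finset.mem_Ico] at ha
      obtain ⟨n, hn⟩ := good_surj hx (k := 6500) (by norm_num) (by norm_num) (a := a) (b := 0)
        (by omega) (by omega)
      exact ⟨n, fun _ => hn⟩
    · exact ⟨0, fun h => absurd h ha⟩
  choose f hf using hex
  have := Finset.card_le_card_of_injOn
    (s := Finset.Ico 65 68) (t := (W x).filter (fun n => ¬ 6500 ^ 2 < n)) f
    (by
      intro a ha
      obtain ⟨h1, h2, h3, h4⟩ := hf a ha
      have ha' := Finset.mem_Ico.mp ha
      have hle : f a ≤ 13000 ^ 2 := h2.trans (by norm_num)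
      have hQ := hx.1 (f a) h1 hle
      have q0 : 0 ≤ (x (f a)).1 := hQ.1.1
      have b := (Nat.floor_eq_iff (by positivity)).mp h3
      have b2 := Nat.lt_floor_add_one (((6500 : ℕ) : ℝ) * (x (f a)).2)
      rw [h4] at b2
      push_cast at b b2
      have c1 : (65 : ℝ) ≤ a := by exact_mod_cast ha'.1
      have c2 : (a : ℝ) + 1 ≤ 68 := by exact_mod_cast ha'.2
      refine Finset.mem_filter.mpr ⟨mem_W.mpr ⟨⟨h1, hle⟩, ?_, ?_, ?_⟩, by omega⟩
      · linarith
      · linarith [b.1]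
      · linarith [b.2])
    (by
      intro a ha b hb hab
      have h3 := (hf a (Finset.mem_coe.mp ha)).2.2.1
      have h3' := (hf b (Finset.mem_coe.mp hb)).2.2.1
      have : f a = f b := hab
      rw [← h3, ← h3', this])
  simpa using this

lemma card_G (hx : KGood 13000 x) : (G x).card ≤ 9 := by
  classical
  have h1 := card_W hx
  have h2 := card_early hx
  have h3 := Finset.card_filter_add_card_filter_not (s := W x) (fun n => 6500 ^ 2 < n)
  have h4 : (G x).card = ((W x).filter (fun n => 6500 ^ 2 < n)).card := by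
    unfold G; congr
  rw [h4]
  omega

open Classical in
/-- The times at which the window content of the bottom row changes. -/
noncomputable def E (x : ℕ → ℝ × ℝ) : Finset ℕ :=
  (Finset.Ioc 6500 13000).filter (fun k => S x k ≠ S x (k - 1))

lemma card_E (hx : KGood 13000 x) : (E x).card ≤ 15 := by
  classical
  have hsub : E x ⊆
      (G x).biUnion (fun n => (E x).filter (fun k => (k - 1) ^ 2 < n ∧ n ≤ k ^ 2)) ∪
      (L x).biUnion (fun n => (E x).filter
        (fun k => ((k - 1 : ℕ) : ℝ) * (x n).2 < 1 ∧ (1 : ℝ) ≤ k * (x n).2)) := by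
    intro k hk
    have hk' := Finset.mem_filter.mp hk
    have hk1 := Finset.mem_Ioc.mp hk'.1
    have hk2 := hk'.2
    have hsq : k ^ 2 ≤ 13000 ^ 2 := Nat.pow_le_pow_left hk1.2 2
    have hsq1 : (k - 1) ^ 2 ≤ k ^ 2 := Nat.pow_le_pow_left (by omega) 2
    have hsq0 : 6500 ^ 2 ≤ (k - 1) ^ 2 := Nat.pow_le_pow_left (by omega) 2
    have hkr : (6500 : ℝ) ≤ ((k - 1 : ℕ) : ℝ) := by
      have : 6500 ≤ k - 1 := by omega
      exact_mod_cast this
    have hkr' : ((k - 1 : ℕ) : ℝ) ≤ k := by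
      have : k - 1 ≤ k := by omega
      exact_mod_cast this
    have hk13 : (k : ℝ) ≤ 13000 := by exact_mod_cast hk1.2
    have hex : ∃ n, ¬ (n ∈ S x k ↔ n ∈ S x (k - 1)) := by
      by_contra hcon
      push Not at hcon
      exact hk2 (Finset.ext hcon)
    obtain ⟨n, hn⟩ := hex
    rw [Finset.mem_union]
    by_cases hnk : n ∈ S x k
    · -- a gain
      have hnk1 : n ∉ S x (k - 1) := fun h => hn ⟨fun _ => h, fun _ => hnk⟩
      have a := mem_S.mp hnk
      have hy0 : 0 ≤ (x n).2 := (hx.1 n a.1.1 (a.1.2.trans hsq)).2.1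
      have hlt : (k - 1) ^ 2 < n := by
        by_contra hle
        push Not at hle
        apply hnk1
        refine mem_S.mpr ⟨⟨a.1.1, hle⟩, ?_, a.2.2⟩
        have : ((k - 1 : ℕ) : ℝ) * (x n).2 ≤ k * (x n).2 := mul_le_mul_of_nonneg_right hkr' hy0
        linarith [a.2.1]
      left
      rw [Finset.mem_biUnion]
      refine ⟨n, ?_, Finset.mem_filter.mpr ⟨hk, hlt, a.1.2⟩⟩
      refine Finset.mem_filter.mpr ⟨mem_W.mpr ⟨⟨a.1.1, a.1.2.trans hsq⟩, ?_, a.2.2⟩, by omega⟩
      have : (6500 : ℝ) * (x n).2 ≤ k * (x n).2 :=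
        mul_le_mul_of_nonneg_right (by linarith) hy0
      linarith [a.2.1]
    · -- a loss
      have hnk1 : n ∈ S x (k - 1) := by
        by_contra h
        exact hn ⟨fun h' => absurd h' hnk, fun h' => absurd h' h⟩
      have a := mem_S.mp hnk1
      have hn13 : n ≤ 13000 ^ 2 := a.1.2.trans (hsq1.trans hsq)
      have hy0 : 0 ≤ (x n).2 := (hx.1 n a.1.1 hn13).2.1
      have hge : (1 : ℝ) ≤ k * (x n).2 := by
        by_contra hlt
        push Not at hlt
        exact hnk (mem_S.mpr ⟨⟨a.1.1, a.1.2.trans hsq1⟩, hlt, a.2.2⟩)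
      right
      rw [Finset.mem_biUnion]
      refine ⟨n, ?_, Finset.mem_filter.mpr ⟨hk, a.2.1, hge⟩⟩
      refine Finset.mem_filter.mpr ⟨mem_W.mpr ⟨⟨a.1.1, hn13⟩, ?_, a.2.2⟩, ?_⟩
      · have : (6500 : ℝ) * (x n).2 ≤ ((k - 1 : ℕ) : ℝ) * (x n).2 :=
          mul_le_mul_of_nonneg_right hkr hy0
        linarith [a.2.1]
      · have : (k : ℝ) * (x n).2 ≤ 13000 * (x n).2 := mul_le_mul_of_nonneg_right hk13 hy0
        linarith
  have c1 : ((G x).biUnion
      (fun n => (E x).filter (fun k => (k - 1) ^ 2 < n ∧ n ≤ k ^ 2))).card ≤ (G x).card * 1 := by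
    apply Finset.card_biUnion_le_card_mul
    intro n _
    rw [Finset.card_le_one]
    intro k hk k' hk'
    have a := (Finset.mem_filter.mp hk).2
    have a' := (Finset.mem_filter.mp hk').2
    by_contra hne
    rcases lt_or_gt_of_ne hne with hlt | hlt
    · have : k ^ 2 ≤ (k' - 1) ^ 2 := Nat.pow_le_pow_left (by omega) 2
      omega
    · have : k' ^ 2 ≤ (k - 1) ^ 2 := Nat.pow_le_pow_left (by omega) 2
      omega
  have c2 : ((L x).biUnion (fun n => (E x).filter
        (fun k => ((k - 1 : ℕ) : ℝ) * (x n).2 < 1 ∧ (1 : ℝ) ≤ k * (x n).2))).card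
      ≤ (L x).card * 1 := by
    apply Finset.card_biUnion_le_card_mul
    intro n hnL
    have hy0 : 0 ≤ (x n).2 := by
      have a := mem_W.mp (Finset.mem_filter.mp hnL).1
      exact (hx.1 n a.1.1 a.1.2).2.1
    rw [Finset.card_le_one]
    intro k hk k' hk'
    have a := (Finset.mem_filter.mp hk).2
    have a' := (Finset.mem_filter.mp hk').2
    by_contra hne
    rcases lt_or_gt_of_ne hne with hlt | hlt
    · have h1 : (k : ℝ) ≤ ((k' - 1 : ℕ) : ℝ) := by
        have : k ≤ k' - 1 := by omega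
        exact_mod_cast this
      have := mul_le_mul_of_nonneg_right h1 hy0
      linarith [a.2, a'.1]
    · have h1 : (k' : ℝ) ≤ ((k - 1 : ℕ) : ℝ) := by
        have : k' ≤ k - 1 := by omega
        exact_mod_cast this
      have := mul_le_mul_of_nonneg_right h1 hy0
      linarith [a'.2, a.1]
  have c3 := Finset.card_le_card hsub
  have c4 := Finset.card_union_le
    ((G x).biUnion (fun n => (E x).filter (fun k => (k - 1) ^ 2 < n ∧ n ≤ k ^ 2)))
    ((L x).biUnion (fun n => (E x).filter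
        (fun k => ((k - 1 : ℕ) : ℝ) * (x n).2 < 1 ∧ (1 : ℝ) ≤ k * (x n).2)))
  have g := card_G hx
  have l := card_L hx
  omega

end Events

/-- There is no `13000`-good sequence. -/
theorem no_good (x : ℕ → ℝ × ℝ) : ¬ KGood 13000 x := by
  intro hx
  have hch := chain (E x) 6500 13000 (2021 / 1979) 9667 (by norm_num) (by norm_num)
    (fun k hk => by
      classical
      exact (Finset.mem_Ioc.mp (Finset.mem_filter.mp hk).1).2)
    (by
      intro A B hA hAB hB hE
      have hS : ∀ d, A + d ≤ B → S x (A + d) = S x A := by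
        intro d
        induction d with
        | zero => intro _; rfl
        | succ d ih =>
          intro hd
          have h1 := ih (by omega)
          have h2 := hE (A + (d + 1)) (by omega) hd
          have h3 : S x (A + (d + 1)) = S x (A + (d + 1) - 1) := by
            by_contra hne
            apply h2
            classical
            exact Finset.mem_filter.mpr ⟨Finset.mem_Ioc.mpr ⟨by omega, by omega⟩, hne⟩
          rw [h3, show A + (d + 1) - 1 = A + d by omega, h1]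
      have := step hx A B hA hAB hB (fun k hAk hkB => by
        have := hS (k - A) (by omega)
        rwa [show A + (k - A) = k by omega] at this)
      linarith)
    15 6500 le_rfl (by norm_num) (by
      refine le_trans (Finset.card_le_card (Finset.filter_subset _ _)) (card_E hx))
  norm_num at hch

lemma KGood.mono {K K' : ℕ} {x : ℕ → ℝ × ℝ} (hx : KGood K x) (h : K' ≤ K) : KGood K' x :=
  ⟨fun n hn1 hn2 => hx.1 n hn1 (hn2.trans (Nat.pow_le_pow_left h 2)),
    fun k hk hkK => hx.2 k hk (hkK.trans h)⟩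

/-! ## An explicit `12`-good sequence -/

/-- Numerators (over `27720`) of the coordinates of the points of a `12`-good sequence. -/
def pts : List (ℕ × ℕ) :=
  [(3960, 23100), (11088, 3960), (22680, 15400), (22680, 0), (3080, 12600), (6930, 6930),
   (11880, 21560), (17640, 11550), (22680, 24948), (0, 3080), (5544, 18480), (11880, 16170),
   (16632, 0), (16632, 18480), (17640, 23760), (22680, 10395), (0, 8316), (0, 17640), (5544, 0),
   (5544, 15400), (5544, 24640), (11088, 24640), (12320, 10395), (17640, 6930), (23100, 18480),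
   (0, 20790), (8316, 12320), (11550, 7920), (17640, 13860), (22176, 4620), (22176, 22176),
   (24948, 9240), (24948, 25410), (25410, 16632), (25410, 2520), (25410, 5040), (0, 24255),
   (3080, 6160), (6160, 9240), (7920, 19404), (8316, 0), (8316, 23100), (13860, 3465),
   (13860, 7560), (15120, 23760), (15120, 12600), (19404, 19800), (25410, 19800), (25410, 12320),
   (0, 13860), (3465, 10395), (5544, 3465), (8316, 4620), (8316, 16632), (8316, 25410),
   (10395, 19800), (11550, 0), (13860, 15840), (15840, 25410), (20160, 5040), (20160, 25410),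
   (20160, 2310), (23760, 6930), (24640, 21560), (0, 11880), (0, 0), (0, 25410), (9240, 13860),
   (9240, 9240), (12600, 24948), (13860, 20160), (13860, 0), (15840, 17325), (17325, 5040),
   (20160, 11880), (20160, 24255), (20160, 13860), (20790, 17325), (20790, 7920), (24255, 12600),
   (25410, 7920), (2520, 7920), (3960, 3960), (3960, 21560), (3960, 0), (3960, 18480),
   (3960, 16170), (3960, 25410), (6160, 12320), (6160, 25410), (9240, 6160), (11088, 12600),
   (12600, 18480), (15840, 9240), (16632, 10395), (17640, 21560), (17640, 25410), (19800, 9240),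
   (25410, 24640), (25410, 13860), (0, 6160), (2310, 15840), (6160, 22176), (6930, 13860),
   (9240, 22176), (10080, 25410), (11088, 6930), (12600, 12320), (12600, 25410), (12600, 6160),
   (12600, 13860), (15840, 22176), (15840, 4620), (17640, 17325), (17640, 3960), (19404, 0),
   (22176, 19800), (24948, 4620), (25200, 0), (25410, 21560), (25410, 25410), (0, 11088),
   (0, 20160), (5040, 6160), (5040, 8316), (5040, 17325), (6930, 22680), (8316, 2310),
   (8316, 10080), (10395, 0), (10395, 17640), (12600, 2310), (20160, 22680), (20160, 17640),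
   (20160, 8316), (22680, 25410), (22680, 2310), (22680, 12600), (23760, 2310), (24948, 17640),
   (25200, 15120), (25200, 24948), (25410, 10395), (25410, 0)]

/-- The (0-indexed) cell of the `k × k` grid that contains the point `p / 27720`. -/
def cellOf (k : ℕ) (p : ℕ × ℕ) : ℕ × ℕ := (k * p.1 / 27720, k * p.2 / 27720)

/-- The cells of the first `k^2` points. -/
def cells (k : ℕ) : List (ℕ × ℕ) := (pts.take (k ^ 2)).map (cellOf k)

/-- Boolean check at level `k`. -/
def check (k : ℕ) : Bool :=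
  decide ((cells k).Nodup) &&
    (List.range k).all fun i => (List.range k).all fun j => decide ((i, j) ∈ cells k)

lemma check_all : (List.range' 1 12).all check = true := by decide +kernel

lemma pts_lt : pts.all (fun p => decide (p.1 < 27720 ∧ p.2 < 27720)) = true := by decide +kernel

lemma pts_length : pts.length = 144 := by decide +kernel

/-- An explicit `12`-good sequence. -/
noncomputable def X (n : ℕ) : ℝ × ℝ :=
  (((pts.getD (n - 1) (0, 0)).1 : ℝ) / 27720, ((pts.getD (n - 1) (0, 0)).2 : ℝ) / 27720)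

lemma X_mem (n : ℕ) : X n ∈ Q := by
  have h : (pts.getD (n - 1) (0, 0)).1 < 27720 ∧ (pts.getD (n - 1) (0, 0)).2 < 27720 := by
    by_cases hn : n - 1 < pts.length
    · have := List.all_eq_true.mp pts_lt (pts[n - 1]) (List.getElem_mem hn)
      rw [List.getD_eq_getElem _ _ hn]
      simpa using this
    · rw [List.getD_eq_default _ _ (by omega)]
      norm_num
  have h1 : ((pts.getD (n - 1) (0, 0)).1 : ℝ) < 27720 := by exact_mod_cast h.1
  have h2 : ((pts.getD (n - 1) (0, 0)).2 : ℝ) < 27720 := by exact_mod_cast h.2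
  refine ⟨⟨?_, ?_⟩, ⟨?_, ?_⟩⟩
  · show (0 : ℝ) ≤ _ / _
    positivity
  · show _ / _ < (1 : ℝ)
    rw [div_lt_one (by norm_num)]; exact h1
  · show (0 : ℝ) ≤ _ / _
    positivity
  · show _ / _ < (1 : ℝ)
    rw [div_lt_one (by norm_num)]; exact h2

lemma X_cell {k i j n : ℕ} (hk : 1 ≤ k) (hi : 1 ≤ i) (hj : 1 ≤ j) :
    X n ∈ Cell k i j ↔ cellOf k (pts.getD (n - 1) (0, 0)) = (i - 1, j - 1) := by
  rw [mem_cell_iff hk hi hj (X_mem n)]
  have e : ∀ a : ℕ, ⌊(k : ℝ) * ((a : ℝ) / 27720)⌋₊ = k * a / 27720 := by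
    intro a
    have := Nat.floor_div_eq_div (K := ℝ) (k * a) 27720
    rw [← this]
    push_cast
    congr 1
    ring
  unfold X cellOf
  rw [e, e, Prod.mk.injEq]

theorem good_X : KGood 12 X := by
  refine ⟨fun n _ _ => X_mem n, ?_⟩
  intro k hk hkK i j hi hik hj hjk
  have hc : check k = true := by
    apply List.all_eq_true.mp check_all k
    rw [List.mem_range'_1]
    omega
  unfold check at hc
  rw [Bool.and_eq_true, decide_eq_true_eq, List.all_eq_true] at hc
  obtain ⟨hnd, hall⟩ := hc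
  have h1 := hall (i - 1) (List.mem_range.mpr (by omega))
  rw [List.all_eq_true] at h1
  have h2 := h1 (j - 1) (List.mem_range.mpr (by omega))
  rw [decide_eq_true_eq] at h2
  have hk2 : k ^ 2 ≤ 12 ^ 2 := Nat.pow_le_pow_left hkK 2
  have hlen : (cells k).length = k ^ 2 := by
    unfold cells
    rw [List.length_map, List.length_take, pts_length]
    omega
  have hget : ∀ m (hm : m < (cells k).length), (cells k)[m] = cellOf k (pts.getD m (0, 0)) := by
    intro m hm
    have hm' : m < ((pts.take (k ^ 2)).map (cellOf k)).length := hm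
    have hm'' : m < pts.length := by
      rw [List.length_map, List.length_take] at hm'
      omega
    have : ((pts.take (k ^ 2)).map (cellOf k))[m]'hm' = cellOf k (pts.getD m (0, 0)) := by
      rw [List.getElem_map, List.getElem_take, List.getD_eq_getElem _ _ hm'']
    exact this
  obtain ⟨m, hm, hme⟩ := List.mem_iff_getElem.mp h2
  refine ⟨m + 1, ⟨⟨by omega, by omega⟩, ?_⟩, ?_⟩
  · rw [X_cell hk hi hj, Nat.add_sub_cancel, ← hget m hm, hme]
  · rintro n ⟨⟨hn1, hn2⟩, hn3⟩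
    rw [X_cell hk hi hj] at hn3
    have hn' : n - 1 < (cells k).length := by omega
    rw [← hget (n - 1) hn', ← hme, hnd.getElem_inj_iff] at hn3
    omega

/-- **`K*` is finite, `12 ≤ K* ≤ 12999`, and no good infinite sequence exists.** -/
theorem result :
    (12 : ℕ∞) ≤ Kstar ∧ Kstar ≤ 12999 ∧
      (∀ K : ℕ, 13000 ≤ K → ¬ ∃ x : ℕ → ℝ × ℝ, KGood K x) ∧
      ¬ ∃ x : ℕ → ℝ × ℝ, ∀ K : ℕ, 1 ≤ K → KGood K x := by
  have h3 : ∀ K : ℕ, 13000 ≤ K → ¬ ∃ x : ℕ → ℝ × ℝ, KGood K x := by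
    rintro K hK ⟨x, hx⟩
    exact no_good x (hx.mono hK)
  refine ⟨?_, ?_, h3, ?_⟩
  · have : ((12 : ℕ) : ℕ∞) ≤ Kstar :=
      le_iSup₂_of_le (12 : ℕ) ⟨by norm_num, X, good_X⟩ le_rfl
    exact_mod_cast this
  · unfold Kstar
    refine iSup₂_le ?_
    rintro K ⟨_, hK⟩
    have hlt : K ≤ 12999 := by
      by_contra hcon
      exact h3 K (by omega) hK
    exact_mod_cast hlt
  · rintro ⟨x, hx⟩
    exact no_good x (hx 13000 (by norm_num))

end Pool.Agent.Results.MP_924435_co.FiniteKStar
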